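import Mathlib

open Finset Filter

namespace Pool.Agent.Results.MP_c0a553_nt.EvenPowers

/-- The value at `y` of the form `F(y) = Q(y_1^k, …, y_s^k)` attached to the quadratic form with
Gram matrix `Q`. -/
def value {s : ℕ} (Q : Matrix (Fin s) (Fin s) ℚ) (k : ℕ) {K : Type} [Field K] [Algebra ℚ K]
    (y : Fin s → K) : K :=
  ∑ i, ∑ j, algebraMap ℚ K (Q i j) * y i ^ k * y j ^ k

/-- `F = Q(y^k)` has a nontrivial zero over the field `K`. -/
def HasZero {s : ℕ} (Q : Matrix (Fin s) (Fin s) ℚ) (k : ℕ) (K : Type) [Field K] [Algebra ℚ K] :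
    Prop :=
  ∃ y : Fin s → K, y ≠ 0 ∧ value Q k y = 0

/-- The Hasse principle for the form `F = Q(y^k)`. -/
def HassePrinciple {s : ℕ} (Q : Matrix (Fin s) (Fin s) ℚ) (k : ℕ) : Prop :=
  (HasZero Q k ℝ ∧ ∀ (p : ℕ) [Fact p.Prime], HasZero Q k ℚ_[p]) → HasZero Q k ℚ

/-- For every `s ≥ s₀` and every nonsingular quadratic form `Q` in `s` variables, the form
`Q(y^k)` satisfies the Hasse principle. -/
def Admissible (k s₀ : ℕ) : Prop :=
  ∀ s : ℕ, s₀ ≤ s → ∀ Q : Matrix (Fin s) (Fin s) ℚ, Q.IsSymm → Q.det ≠ 0 → HassePrinciple Q k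

/-- The threshold `h(k)`, as an extended natural number (`⊤` if there is no admissible `s₀`). -/
noncomputable def h (k : ℕ) : ℕ∞ := sInf {m : ℕ∞ | ∃ s₀ : ℕ, m = s₀ ∧ Admissible k s₀}

/-- Hensel's lemma for `z ^ m = A`. -/
lemma lift_root {p : ℕ} [Fact p.Prime] {m : ℕ} (a A : ℤ_[p])
    (h : ‖a ^ m - A‖ < ‖(m : ℤ_[p])‖ ^ 2) (ha : ‖a‖ = 1) :
    ∃ z : ℤ_[p], z ^ m = A ∧ z ≠ 0 := by
  have hd : (Polynomial.X ^ m - Polynomial.C A : Polynomial ℤ_[p]).derivative.aeval a =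
      (m : ℤ_[p]) * a ^ (m - 1) := by
    rw [Polynomial.derivative_sub, Polynomial.derivative_X_pow, Polynomial.derivative_C, sub_zero]
    simp
  have hdn : ‖(Polynomial.X ^ m - Polynomial.C A : Polynomial ℤ_[p]).derivative.aeval a‖ =
      ‖(m : ℤ_[p])‖ := by
    rw [hd, norm_mul, norm_pow, ha, one_pow, mul_one]
  have h1 : ‖(Polynomial.X ^ m - Polynomial.C A : Polynomial ℤ_[p]).aeval a‖ <
      ‖(Polynomial.X ^ m - Polynomial.C A : Polynomial ℤ_[p]).derivative.aeval a‖ ^ 2 := by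
    rw [hdn]; simpa using h
  obtain ⟨z, hz, hz2, -⟩ := hensels_lemma h1
  refine ⟨z, ?_, ?_⟩
  · simp only [map_sub, map_pow, Polynomial.aeval_X, Polynomial.aeval_C] at hz
    exact sub_eq_zero.mp hz
  · rintro rfl
    rw [zero_sub, norm_neg, ha, hdn] at hz2
    have := PadicInt.norm_le_one (m : ℤ_[p])
    linarith

lemma lift_vector {p : ℕ} [Fact p.Prime] {m n : ℕ} (a : Fin n → ℤ_[p]) (i₀ : Fin n)
    (ha : ‖a i₀‖ = 1) (h : ‖∑ i, a i ^ m‖ < ‖(m : ℤ_[p])‖ ^ 2) :
    ∃ y : Fin n → ℚ_[p], y ≠ 0 ∧ ∑ i, y i ^ m = 0 := by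
  classical
  set A : ℤ_[p] := -∑ i ∈ univ.erase i₀, a i ^ m with hA
  have hsum : ∀ b : Fin n → ℤ_[p], ∑ i, b i ^ m = b i₀ ^ m + ∑ i ∈ univ.erase i₀, b i ^ m :=
    fun b => (Finset.add_sum_erase univ (fun i => b i ^ m) (mem_univ i₀)).symm
  have h1 : ‖a i₀ ^ m - A‖ < ‖(m : ℤ_[p])‖ ^ 2 := by
    rw [hA, sub_neg_eq_add, ← hsum a]; exact h
  obtain ⟨z, hz, hz0⟩ := lift_root (a i₀) A h1 ha
  set b : Fin n → ℤ_[p] := Function.update a i₀ z with hb
  have hb0 : b i₀ = z := by simp [hb]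
  have hbs : ∑ i, b i ^ m = 0 := by
    rw [hsum b, hb0, hz, hA]
    have : ∑ i ∈ univ.erase i₀, b i ^ m = ∑ i ∈ univ.erase i₀, a i ^ m := by
      apply Finset.sum_congr rfl
      intro i hi
      rw [hb, Function.update_of_ne (Finset.ne_of_mem_erase hi)]
    rw [this]; ring
  refine ⟨fun i => (b i : ℚ_[p]), ?_, ?_⟩
  · intro hy
    apply hz0
    have := congrFun hy i₀
    simp only [hb0, Pi.zero_apply] at this
    exact PadicInt.coe_eq_zero.mp this
  · have := congrArg (fun x : ℤ_[p] => (x : ℚ_[p])) hbs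
    simp only [PadicInt.coe_zero, PadicInt.coe_sum, PadicInt.coe_pow] at this
    exact this

/-- sums of `m`-th powers in at least `m³` variables have nontrivial zeros over every `ℚ_p` -/
lemma padic_diagonal (p : ℕ) [Fact p.Prime] (m n : ℕ) (hm : 2 ≤ m) (hn : m ^ 3 ≤ n) :
    ∃ y : Fin n → ℚ_[p], y ≠ 0 ∧ ∑ i, y i ^ m = 0 := by
  classical
  have hp : p.Prime := Fact.out
  by_cases hpm : p ∣ m
  · -- use `p ^ t` ones
    set v := padicValNat p m with hv
    have hpv : p ^ v ∣ m := pow_padicValNat_dvd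
    have hpv' : p ^ v ≤ m := Nat.le_of_dvd (by omega) hpv
    have hpm' : p ≤ m := Nat.le_of_dvd (by omega) hpm
    set t := 2 * v + 1 with ht
    have hpt : p ^ t ≤ n := by
      calc p ^ t = p ^ v * p ^ v * p := by rw [ht]; ring
        _ ≤ m * m * m := by gcongr
        _ = m ^ 3 := by ring
        _ ≤ n := hn
    have hpt0 : 0 < p ^ t := pow_pos hp.pos t
    let a : Fin n → ℤ_[p] := fun i => if (i : ℕ) < p ^ t then 1 else 0
    have hsum : ∑ i, a i ^ m = (p : ℤ_[p]) ^ t := by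
      have h1 : ∀ i, a i ^ m = if (i : ℕ) < p ^ t then 1 else 0 := by
        intro i
        by_cases h : (i : ℕ) < p ^ t
        · simp [a, h]
        · simp [a, h, zero_pow (by omega : m ≠ 0)]
      simp only [h1]
      rw [Finset.sum_boole]
      have : (Finset.univ.filter fun i : Fin n => (i : ℕ) < p ^ t).card = p ^ t := by
        rw [Fin.card_filter_val_lt, min_eq_right hpt]
      rw [this]; push_cast; rfl
    refine lift_vector a ⟨0, by omega⟩ (by simp [a, hpt0]) ?_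
    rw [hsum, norm_pow, PadicInt.norm_p]
    have hnorm : ‖(m : ℤ_[p])‖ = ((p : ℝ)⁻¹) ^ v := by
      have : ‖((m : ℕ) : ℚ_[p])‖ = (p : ℝ) ^ (-(padicValNat p m : ℤ)) := by
        have hm0 : ((m : ℚ_[p])) ≠ 0 := by exact_mod_cast (by omega : m ≠ 0)
        rw [Padic.norm_eq_zpow_neg_valuation hm0, Padic.valuation_natCast]
      rw [PadicInt.norm_def]
      push_cast
      rw [this, zpow_neg, zpow_natCast, inv_pow]
    rw [hnorm, ← pow_mul, mul_comm v 2, ht]
    have hp1 : (1 : ℝ) < p := by exact_mod_cast hp.one_lt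
    exact pow_lt_pow_right_of_lt_one₀ (by positivity) (inv_lt_one_of_one_lt₀ hp1) (by omega)
  · -- Chevalley-Warning
    have : NeZero p := ⟨hp.ne_zero⟩
    let f : MvPolynomial (Fin n) (ZMod p) := ∑ i, MvPolynomial.X i ^ m
    have hdeg : f.totalDegree < Fintype.card (Fin n) := by
      rw [Fintype.card_fin]
      have h1 : f.totalDegree ≤ m := by
        refine (MvPolynomial.totalDegree_finsetSum _ _).trans ?_
        refine Finset.sup_le fun i _ => ?_
        exact (MvPolynomial.totalDegree_pow _ _).trans (by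
          rw [MvPolynomial.totalDegree_X, mul_one])
      have h2 : m < m ^ 3 := by
        calc m = m ^ 1 := (pow_one m).symm
          _ < m ^ 3 := Nat.pow_lt_pow_right (by omega) (by norm_num)
      omega
    have hcard := char_dvd_card_solutions p hdeg
    have heval : ∀ x : Fin n → ZMod p, MvPolynomial.eval x f = ∑ i, x i ^ m := by
      intro x; simp [f]
    have hex : ∃ x : Fin n → ZMod p, x ≠ 0 ∧ ∑ i, x i ^ m = 0 := by
      by_contra hno
      push Not at hno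
      have huniq : Fintype.card { x : Fin n → ZMod p // MvPolynomial.eval x f = 0 } = 1 := by
        rw [Fintype.card_eq_one_iff]
        refine ⟨⟨0, by rw [heval]; simp [zero_pow (by omega : m ≠ 0)]⟩, ?_⟩
        rintro ⟨x, hx⟩
        rw [heval] at hx
        by_contra hne
        exact hno x (fun h => hne (Subtype.ext h)) hx
      rw [huniq] at hcard
      exact hp.one_lt.ne' (Nat.dvd_one.mp hcard)
    obtain ⟨x, hx0, hx⟩ := hex
    obtain ⟨i₀, hi₀⟩ := Function.ne_iff.mp hx0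
    have hmn : ‖(m : ℤ_[p])‖ = 1 := by
      have h1 : ¬ ‖((m : ℤ) : ℤ_[p])‖ < 1 := by
        rw [PadicInt.norm_int_lt_one_iff_dvd]
        exact_mod_cast hpm
      push_cast at h1
      exact le_antisymm (PadicInt.norm_le_one _) (not_lt.mp h1)
    refine lift_vector (fun i => ((x i).val : ℤ_[p])) i₀ ?_ ?_
    · have h1 : ¬ ‖(((x i₀).val : ℤ) : ℤ_[p])‖ < 1 := by
        rw [PadicInt.norm_int_lt_one_iff_dvd]
        intro hdvd
        apply hi₀
        have h2 : (p : ℕ) ∣ (x i₀).val := by exact_mod_cast hdvd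
        have h3 := Nat.eq_zero_of_dvd_of_lt h2 (ZMod.val_lt _)
        simpa using h3
      push_cast at h1
      exact le_antisymm (PadicInt.norm_le_one _) (not_lt.mp h1)
    · rw [hmn, one_pow]
      have h1 : ‖((∑ i, ((x i).val : ℤ) ^ m : ℤ) : ℤ_[p])‖ < 1 := by
        rw [PadicInt.norm_int_lt_one_iff_dvd, ← ZMod.intCast_zmod_eq_zero_iff_dvd]
        push_cast
        simp only [ZMod.natCast_val, ZMod.cast_id', id_eq]
        exact hx
      push_cast at h1
      exact h1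


/-! ### The counterexamples -/

/-- the ternary block `(x₀ - 2 x₁)² + x₂ (x₀ + x₁) + x₂²` -/
def blockM : Matrix (Fin 3) (Fin 3) ℚ := !![1, -2, 1 / 2; -2, 4, 1 / 2; 1 / 2, 1 / 2, 1]

/-- the Gram matrix of
`(x₀ - 2 x₁)² + x₂ (x₀ + x₁) + x₂² + x₃² + ... + x_{n+2}²` -/
def gram (n : ℕ) : Matrix (Fin (3 + n)) (Fin (3 + n)) ℚ :=
  (Matrix.fromBlocks blockM 0 0 1).submatrix finSumFinEquiv.symm finSumFinEquiv.symm

lemma gram_isSymm (n : ℕ) : (gram n).IsSymm := by
  unfold gram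
  apply Matrix.IsSymm.submatrix
  apply Matrix.IsSymm.fromBlocks
  · ext i j
    fin_cases i <;> fin_cases j <;> rfl
  · simp
  · exact Matrix.isSymm_one

lemma gram_det (n : ℕ) : (gram n).det ≠ 0 := by
  unfold gram
  rw [Matrix.det_submatrix_equiv_self, Matrix.det_fromBlocks_zero₂₁, Matrix.det_one, mul_one]
  have h : blockM.det = -9 / 4 := by
    rw [blockM, Matrix.det_fin_three]
    simp
    norm_num
  rw [h]
  norm_num

lemma value_gram (n k : ℕ) {K : Type} [Field K] [Algebra ℚ K] (y : Fin (3 + n) → K) :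
    value (gram n) k y =
      (y (Fin.castAdd n 0) ^ k - 2 * y (Fin.castAdd n 1) ^ k) ^ 2 +
        y (Fin.castAdd n 2) ^ k * (y (Fin.castAdd n 0) ^ k + y (Fin.castAdd n 1) ^ k) +
        (y (Fin.castAdd n 2) ^ k) ^ 2 + ∑ i : Fin n, (y (Fin.natAdd 3 i) ^ k) ^ 2 := by
  have hc : CharZero K := charZero_of_injective_algebraMap (algebraMap ℚ K).injective
  unfold value gram
  rw [← finSumFinEquiv.sum_comp]
  simp_rw [← finSumFinEquiv.sum_comp (g := fun j => _)]
  simp only [Matrix.submatrix_apply, Equiv.symm_apply_apply, Fintype.sum_sum_type,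
    Matrix.fromBlocks_apply₁₁, Matrix.fromBlocks_apply₁₂, Matrix.fromBlocks_apply₂₁,
    Matrix.fromBlocks_apply₂₂, Matrix.zero_apply, map_zero, zero_mul, Finset.sum_const_zero,
    add_zero, zero_add, finSumFinEquiv_apply_left, finSumFinEquiv_apply_right, blockM,
    Fin.sum_univ_three]
  congr 1
  · simp [Matrix.of_apply]
    field_simp
    ring
  · apply Finset.sum_congr rfl
    intro i _
    rw [Finset.sum_eq_single i]
    · simp; ring
    · intro j _ hj
      simp [Matrix.one_apply_ne hj.symm]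
    · simp


/-- real zero -/
lemma real_zero (n k : ℕ) (hk : 2 ≤ k) : HasZero (gram n) k ℝ := by
  refine ⟨fun i => if i = Fin.castAdd n 0 then (2 : ℝ) ^ ((k : ℝ)⁻¹) else
    if i = Fin.castAdd n 1 then 1 else 0, ?_, ?_⟩
  · intro h
    have := congrFun h (Fin.castAdd n 1)
    simp [Fin.ext_iff] at this
  · rw [value_gram]
    have hk0 : k ≠ 0 := by omega
    have h1 : ((2 : ℝ) ^ ((k : ℝ)⁻¹)) ^ k = 2 := Real.rpow_inv_natCast_pow (by norm_num) hk0
    have h2 : ∀ i : Fin n, ¬ (Fin.natAdd 3 i = Fin.castAdd n (0 : Fin 3)) := by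
      intro i h; simp [Fin.ext_iff] at h
    have h3 : ∀ i : Fin n, ¬ (Fin.natAdd 3 i = Fin.castAdd n (1 : Fin 3)) := by
      intro i h; simp [Fin.ext_iff] at h; omega
    simp [h1, h2, h3, hk0, Fin.ext_iff]

/-- zeros over `ℚ_p` -/
lemma padic_zero (n k : ℕ) (hk : 2 ≤ k) (hn : (2 * k) ^ 3 ≤ n) (p : ℕ) [Fact p.Prime] :
    HasZero (gram n) k ℚ_[p] := by
  obtain ⟨y, hy, hys⟩ := padic_diagonal p (2 * k) n (by omega) hn
  refine ⟨Fin.append (fun _ => 0) y, ?_, ?_⟩
  · intro h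
    apply hy
    funext i
    have := congrFun h (Fin.natAdd 3 i)
    rw [Fin.append_right] at this
    exact this
  · have hk0 : k ≠ 0 := by omega
    rw [value_gram]
    simp only [Fin.append_left, Fin.append_right, zero_pow hk0]
    have h2 : ∀ i, (y i ^ k) ^ 2 = y i ^ (2 * k) := fun i => by rw [← pow_mul]; ring_nf
    simp only [h2, hys]
    ring

/-- no rational zero when `k` is even -/
lemma no_rational_zero (n k : ℕ) (hk : 2 ≤ k) (heven : Even k) : ¬ HasZero (gram n) k ℚ := by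
  rintro ⟨y, hy, hv⟩
  apply hy
  rw [value_gram] at hv
  have hpos : ∀ i, 0 ≤ y i ^ k := fun i => heven.pow_nonneg _
  have hsum : 0 ≤ ∑ i : Fin n, (y (Fin.natAdd 3 i) ^ k) ^ 2 :=
    Finset.sum_nonneg fun i _ => sq_nonneg _
  have h02 := mul_nonneg (hpos (Fin.castAdd n 2)) (add_nonneg (hpos (Fin.castAdd n 0))
    (hpos (Fin.castAdd n 1)))
  have hk0 : k ≠ 0 := by omega
  have hA : (y (Fin.castAdd n 0) ^ k - 2 * y (Fin.castAdd n 1) ^ k) ^ 2 = 0 := by
    nlinarith [sq_nonneg (y (Fin.castAdd n 0) ^ k - 2 * y (Fin.castAdd n 1) ^ k),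
      sq_nonneg (y (Fin.castAdd n 2) ^ k)]
  have hB : (y (Fin.castAdd n 2) ^ k) ^ 2 = 0 := by
    nlinarith [sq_nonneg (y (Fin.castAdd n 0) ^ k - 2 * y (Fin.castAdd n 1) ^ k),
      sq_nonneg (y (Fin.castAdd n 2) ^ k)]
  have hC : ∑ i : Fin n, (y (Fin.natAdd 3 i) ^ k) ^ 2 = 0 := by
    nlinarith [sq_nonneg (y (Fin.castAdd n 0) ^ k - 2 * y (Fin.castAdd n 1) ^ k),
      sq_nonneg (y (Fin.castAdd n 2) ^ k)]
  have h2 : y (Fin.castAdd n 2) = 0 := by
    have := pow_eq_zero_iff (two_ne_zero) |>.mp hB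
    exact (pow_eq_zero_iff hk0).mp this
  have hrest : ∀ i : Fin n, y (Fin.natAdd 3 i) = 0 := by
    intro i
    have := (Finset.sum_eq_zero_iff_of_nonneg (fun i _ => sq_nonneg _)).mp hC i (mem_univ i)
    have := pow_eq_zero_iff (two_ne_zero) |>.mp this
    exact (pow_eq_zero_iff hk0).mp this
  have h01 : y (Fin.castAdd n 0) ^ k = 2 * y (Fin.castAdd n 1) ^ k := by
    have := pow_eq_zero_iff (two_ne_zero) |>.mp hA
    linarith
  have h1 : y (Fin.castAdd n 1) = 0 := by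
    by_contra h1
    have h0 : y (Fin.castAdd n 0) ≠ 0 := by
      intro h0
      rw [h0, zero_pow hk0] at h01
      have : y (Fin.castAdd n 1) ^ k = 0 := by linarith
      exact h1 ((pow_eq_zero_iff hk0).mp this)
    have hv := congrArg (padicValRat 2) h01
    rw [padicValRat.pow, padicValRat.mul (by norm_num) (pow_ne_zero _ h1), padicValRat.pow] at hv
    have h22 : padicValRat 2 (2 : ℚ) = 1 := by
      have := padicValRat.self (p := 2) (by norm_num)
      exact_mod_cast this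
    rw [h22] at hv
    have hdvd : (k : ℤ) ∣ 1 := by
      refine ⟨padicValRat 2 (y (Fin.castAdd n 0)) - padicValRat 2 (y (Fin.castAdd n 1)), ?_⟩
      linear_combination -hv
    have := Int.le_of_dvd one_pos hdvd
    omega
  have h0 : y (Fin.castAdd n 0) = 0 := by
    rw [h1, zero_pow hk0, mul_zero] at h01
    exact (pow_eq_zero_iff hk0).mp h01
  funext i
  refine Fin.addCases (fun j => ?_) (fun j => hrest j) i
  fin_cases j
  · exact h0
  · exact h1
  · exact h2

/-- For even `k ≥ 2` the Hasse principle fails in every large number of variables. -/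
theorem failure (k : ℕ) (hk : 2 ≤ k) (heven : Even k) (s : ℕ) (hs : (2 * k) ^ 3 + 3 ≤ s) :
    ∃ Q : Matrix (Fin s) (Fin s) ℚ, Q.IsSymm ∧ Q.det ≠ 0 ∧ HasZero Q k ℝ ∧
      (∀ (p : ℕ) [Fact p.Prime], HasZero Q k ℚ_[p]) ∧ ¬ HasZero Q k ℚ := by
  obtain ⟨n, rfl⟩ : ∃ n, s = 3 + n := ⟨s - 3, by omega⟩
  exact ⟨gram n, gram_isSymm n, gram_det n, real_zero n k hk,
    fun p _ => padic_zero n k hk (by omega) p, no_rational_zero n k hk heven⟩

theorem h_eq_top (k : ℕ) (hk : 2 ≤ k) (heven : Even k) : h k = ⊤ := by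
  unfold h
  rw [sInf_eq_top]
  rintro m ⟨s₀, rfl, hs₀⟩
  exfalso
  obtain ⟨Q, h1, h2, h3, h4, h5⟩ := failure k hk heven (max s₀ ((2 * k) ^ 3 + 3)) (le_max_right _ _)
  exact h5 (hs₀ _ (le_max_left _ _) Q h1 h2 ⟨h3, h4⟩)

/-- For every even `k ≥ 2` and every `s ≥ (2k)³ + 3` there is a nonsingular quadratic form `Q` in
`s` variables such that `Q(y^k)` has nontrivial zeros over `ℝ` and over every `ℚ_p` but none over
`ℚ`; so `h(k) = ⊤` for all even `k`, and there is `c > 0` with `log h(k) ≥ c k` for infinitely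
many `k`. -/
theorem result :
    (∀ k : ℕ, 2 ≤ k → Even k → ∀ s : ℕ, (2 * k) ^ 3 + 3 ≤ s →
      ∃ Q : Matrix (Fin s) (Fin s) ℚ, Q.IsSymm ∧ Q.det ≠ 0 ∧ HasZero Q k ℝ ∧
        (∀ (p : ℕ) [Fact p.Prime], HasZero Q k ℚ_[p]) ∧ ¬ HasZero Q k ℚ) ∧
    ∃ c : ℝ, 0 < c ∧ ∃ᶠ k : ℕ in atTop,
      ((c * k : ℝ) : EReal) ≤ ENNReal.log ((h k : ℕ∞) : ENNReal) := by
  refine ⟨failure, 1, one_pos, ?_⟩
  rw [Filter.frequently_atTop]
  intro a
  refine ⟨2 * (a + 1), by omega, ?_⟩
  rw [h_eq_top _ (by omega) (even_two_mul _)]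
  simp

end Pool.Agent.Results.MP_c0a553_nt.EvenPowers
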